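import Pool.Agent.Lib.PTW.Abs4

/-!
# Theorem W, block F, assembly: a good cosheaf is in `B`: `good_B` is proved in `Abs4`
-/
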